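import Pool.Agent.V11134.RB.Defs

/-!
# Graphs given by an asymmetric relation, colourings given on the arcs
-/

set_option autoImplicit false

namespace Pool.Agent.V11134.RB

variable {V W κ : Type}

theorem mem_edge_fromRel {rel : W → W → Prop} (hasym : ∀ u v, rel u v → ¬ rel v u) {e : Sym2 W} :
    e ∈ (SimpleGraph.fromRel rel).edgeSet ↔ ∃ u v, rel u v ∧ s(u, v) = e := by
  induction e using Sym2.ind with
  | _ u v =>
    rw [SimpleGraph.mem_edgeSet, SimpleGraph.fromRel_adj]
    constructor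
    · rintro ⟨-, h | h⟩
      · exact ⟨u, v, h, rfl⟩
      · exact ⟨v, u, h, Sym2.eq_swap⟩
    · rintro ⟨u', v', h, he⟩
      have hne : u' ≠ v' := by
        rintro rfl
        exact hasym _ _ h h
      rw [Sym2.eq_iff] at he
      rcases he with ⟨rfl, rfl⟩ | ⟨rfl, rfl⟩
      · exact ⟨hne, Or.inl h⟩
      · exact ⟨hne.symm, Or.inr h⟩

open Classical in
/-- The colouring of unordered pairs induced by a colouring of the arcs. -/
noncomputable def lc (rel : W → W → Prop) (col : W → W → κ) (e : Sym2 W) : κ :=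
  if rel e.out.1 e.out.2 then col e.out.1 e.out.2 else col e.out.2 e.out.1

theorem lc_eq {rel : W → W → Prop} (hasym : ∀ u v, rel u v → ¬ rel v u) (col : W → W → κ)
    {u v : W} (h : rel u v) : lc rel col s(u, v) = col u v := by
  unfold lc
  have ho : s((Quot.out s(u, v)).1, (Quot.out s(u, v)).2) = s(u, v) := Quot.out_eq _
  rw [Sym2.eq_iff] at ho
  rcases ho with ⟨h1, h2⟩ | ⟨h1, h2⟩
  · rw [h1, h2, if_pos h]
  · rw [h1, h2, if_neg (hasym _ _ h)]

theorem isProper_lc {rel : W → W → Prop} (hasym : ∀ u v, rel u v → ¬ rel v u) {col : W → W → κ}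
    (h1 : ∀ u v w, rel u v → rel u w → v ≠ w → col u v ≠ col u w)
    (h2 : ∀ u v w, rel v u → rel w u → v ≠ w → col v u ≠ col w u)
    (h3 : ∀ u v w, rel u v → rel w u → col u v ≠ col w u) :
    IsProper (SimpleGraph.fromRel rel) (lc rel col) := by
  intro e he e' he' hne hv
  rw [mem_edge_fromRel hasym] at he he'
  obtain ⟨u, v, huv, rfl⟩ := he
  obtain ⟨u', v', huv', rfl⟩ := he'
  obtain ⟨x, hx, hx'⟩ := hv
  rw [lc_eq hasym col huv, lc_eq hasym col huv']
  rw [Sym2.mem_iff] at hx hx'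
  rcases hx with rfl | rfl <;> rcases hx' with rfl | rfl
  · exact h1 _ _ _ huv huv' (fun h => hne (by rw [h]))
  · exact h3 _ _ _ huv huv'
  · exact fun h => h3 _ _ _ huv' huv h.symm
  · exact h2 _ _ _ huv huv' (fun h => hne (by rw [h]))

/-- Properness for arcs with a common vertex. -/
theorem IsProper.ne {G : SimpleGraph W} {c : Sym2 W → κ} (hc : IsProper G c) {u v w : W}
    (h1 : G.Adj u v) (h2 : G.Adj u w) (hvw : v ≠ w) : c s(u, v) ≠ c s(u, w) := by
  refine hc _ h1 _ h2 ?_ ⟨u, Sym2.mem_mk_left _ _, Sym2.mem_mk_left _ _⟩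
  intro h
  rw [Sym2.eq_iff] at h
  rcases h with ⟨-, h⟩ | ⟨h, h'⟩
  · exact hvw h
  · exact hvw (h'.trans h)

theorem IsProper.comp_injective {G : SimpleGraph W} {κ' : Type} {c : Sym2 W → κ} (hc : IsProper G c)
    {g : κ → κ'} (hg : Function.Injective g) : IsProper G (fun e => g (c e)) :=
  fun e he e' he' hne hv h => hc e he e' he' hne hv (hg h)

theorem HasRainbow.of_comp {H : SimpleGraph V} {G : SimpleGraph W} {κ' : Type} {c : Sym2 W → κ}
    {g : κ → κ'} (h : HasRainbow H G (fun e => g (c e))) : HasRainbow H G c := by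
  obtain ⟨f, h1, h2, h3⟩ := h
  refine ⟨f, h1, h2, ?_⟩
  intro e he e' he' hee
  exact h3 he he' (congrArg g hee)

end Pool.Agent.V11134.RB
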