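import Pool.Agent.V11134.RB.Gadget

/-!
# Counting edges between the first side and the outer vertices with colours in a given set
-/

set_option autoImplicit false

namespace Pool.Agent.V11134.RB

open Finset

variable {A B : Type} {T t p : ℕ}

theorem adj_xy [Zero A] {τ : Fin T → B} {g g' : A} {i i' : B}
    (h : ¬ (g' = 0 ∧ ∃ j, τ j = i')) : (host τ).Adj (.x g i) (.y g' i') :=
  host_adj.2 (Or.inl h)

theorem adj_xo [Zero A] {τ : Fin T → B} {g : A} {i : B} {j : Fin T} :
    (host τ).Adj (.x g i) (.o g j) :=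
  host_adj.2 (Or.inl rfl)

/-- The colours at a vertex of the first side are distinct. -/
theorem count_at_x [Zero A] [Fintype A] [Fintype B] [DecidableEq A] [DecidableEq B]
    {τ : Fin T → B} {c : Sym2 (HW A B T) → ℕ} (hc : IsProper (host τ) c) (U : Finset ℕ)
    (g : A) (i : B) :
    (univ.filter (fun j : Fin T => c s(.x g i, .o g j) ∈ U)).card +
      (univ.filter (fun y : A × B => ¬ (y.1 = 0 ∧ ∃ j, τ j = y.2) ∧
        c s(.x g i, .y y.1 y.2) ∈ U)).card ≤ U.card := by
  classical
  rw [← Finset.card_disjSum]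
  refine Finset.card_le_card_of_injOn
    (Sum.elim (fun j => c s(.x g i, .o g j)) (fun y : A × B => c s(.x g i, .y y.1 y.2))) ?_ ?_
  · intro q hq
    rw [Finset.mem_coe, Finset.mem_disjSum] at hq
    rcases hq with ⟨j, hj, rfl⟩ | ⟨y, hy, rfl⟩
    · exact (Finset.mem_filter.1 hj).2
    · exact (Finset.mem_filter.1 hy).2.2
  · intro q hq q' hq' h
    rw [Finset.mem_coe, Finset.mem_disjSum] at hq hq'
    rcases hq with ⟨j, hj, rfl⟩ | ⟨y, hy, rfl⟩ <;> rcases hq' with ⟨j', hj', rfl⟩ | ⟨y', hy', rfl⟩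
    · by_contra hne
      refine hc.ne (adj_xo (j := j)) (adj_xo (j := j')) ?_ h
      intro h'
      injection h' with _ h'
      exact hne (by rw [h'])
    · exact absurd h (hc.ne (adj_xo (j := j)) (adj_xy (Finset.mem_filter.1 hy').2.1) (by simp))
    · exact absurd h (hc.ne (adj_xy (Finset.mem_filter.1 hy).2.1) (adj_xo (j := j')) (by simp))
    · by_contra hne
      refine hc.ne (adj_xy (Finset.mem_filter.1 hy).2.1) (adj_xy (Finset.mem_filter.1 hy').2.1) ?_ h
      intro h'
      injection h' with h1 h2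
      exact hne (by rw [Prod.ext h1 h2])

/-- A full vertex of the second side misses few colours. -/
theorem count_at_y [Zero A] [Fintype A] [Fintype B] [DecidableEq A] [DecidableEq B]
    {τ : Fin T → B} {c : Sym2 (HW A B T) → ℕ} (hc : IsProper (host τ) c) {C : Finset ℕ} {k : ℕ}
    (hC : ∀ u v, (host τ).Adj u v → c s(u, v) ∈ C)
    (hk : C.card ≤ Fintype.card A * Fintype.card B + k) (U : Finset ℕ) (hU : U ⊆ C)
    (g' : A) (i' : B) (hy : ¬ (g' = 0 ∧ ∃ j, τ j = i')) :
    U.card ≤ (univ.filter (fun x : A × B => c s(.x x.1 x.2, .y g' i') ∈ U)).card + k := by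
  classical
  set I : Finset ℕ := univ.image (fun x : A × B => c s(.x x.1 x.2, .y g' i')) with hI
  have hinj : Function.Injective (fun x : A × B => c s(.x x.1 x.2, .y g' i')) := by
    intro x x' h
    by_contra hne
    have h' : c s(.y g' i', .x x.1 x.2) = c s(.y g' i', .x x'.1 x'.2) :=
      (congrArg c Sym2.eq_swap).trans (h.trans (congrArg c Sym2.eq_swap))
    refine hc.ne (adj_xy hy).symm (adj_xy hy).symm ?_ h'
    intro h2
    injection h2 with h3 h4
    exact hne (Prod.ext h3 h4)
  have hIcard : I.card = Fintype.card A * Fintype.card B := by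
    rw [hI, Finset.card_image_of_injective _ hinj, Finset.card_univ, Fintype.card_prod]
  have hIC : I ⊆ C := by
    intro z hz
    obtain ⟨x, -, rfl⟩ := Finset.mem_image.1 hz
    exact hC _ _ (adj_xy hy)
  have hsplit : (C \ I).card ≤ k := by
    rw [Finset.card_sdiff_of_subset hIC, hIcard]
    omega
  have hUI : (U ∩ I).card ≤ (univ.filter (fun x : A × B => c s(.x x.1 x.2, .y g' i') ∈ U)).card := by
    have : U ∩ I ⊆ (univ.filter (fun x : A × B => c s(.x x.1 x.2, .y g' i') ∈ U)).image
        (fun x : A × B => c s(.x x.1 x.2, .y g' i')) := by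
      intro z hz
      rw [Finset.mem_inter] at hz
      obtain ⟨x, -, rfl⟩ := Finset.mem_image.1 hz.2
      exact Finset.mem_image.2 ⟨x, Finset.mem_filter.2 ⟨Finset.mem_univ _, hz.1⟩, rfl⟩
    exact (Finset.card_le_card this).trans Finset.card_image_le
  have hUsplit : U ⊆ (U ∩ I) ∪ (C \ I) := by
    intro z hz
    by_cases h : z ∈ I
    · exact Finset.mem_union_left _ (Finset.mem_inter.2 ⟨hz, h⟩)
    · exact Finset.mem_union_right _ (Finset.mem_sdiff.2 ⟨hU hz, h⟩)
  calc U.card ≤ ((U ∩ I) ∪ (C \ I)).card := Finset.card_le_card hUsplit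
    _ ≤ (U ∩ I).card + (C \ I).card := Finset.card_union_le _ _
    _ ≤ _ := by omega

/-- The main counting estimate, for sets of colours in the palette. -/
theorem count_xo_aux [Zero A] [Fintype A] [Fintype B] [DecidableEq A] [DecidableEq B]
    {τ : Fin T → B} {c : Sym2 (HW A B T) → ℕ} (hc : IsProper (host τ) c) {C : Finset ℕ} {k : ℕ}
    (hC : ∀ u v, (host τ).Adj u v → c s(u, v) ∈ C)
    (hk : C.card ≤ Fintype.card A * Fintype.card B + k) (U : Finset ℕ) (hU : U ⊆ C) :
    (univ.filter (fun q : (A × B) × Fin T => c s(.x q.1.1 q.1.2, .o q.1.1 q.2) ∈ U)).card ≤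
      T * U.card + Fintype.card A * Fintype.card B * k := by
  classical
  set Y : Finset (A × B) := univ.filter (fun y => ¬ (y.1 = 0 ∧ ∃ j, τ j = y.2)) with hY
  set N := Fintype.card A * Fintype.card B with hN
  have hYle : Y.card ≤ N := by
    refine (Finset.card_le_univ _).trans ?_
    rw [Fintype.card_prod]
  have hYge : N ≤ Y.card + T := by
    have h1 : (univ.filter (fun y : A × B => (y.1 = 0 ∧ ∃ j, τ j = y.2))).card ≤ T := by
      have : univ.filter (fun y : A × B => (y.1 = 0 ∧ ∃ j, τ j = y.2)) ⊆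
          (univ : Finset (Fin T)).image (fun j => ((0 : A), τ j)) := by
        intro y hy
        obtain ⟨h0, j, hj⟩ := (Finset.mem_filter.1 hy).2
        exact Finset.mem_image.2 ⟨j, Finset.mem_univ _, by rw [← h0, hj]⟩
      refine (Finset.card_le_card this).trans (Finset.card_image_le.trans ?_)
      rw [Finset.card_univ, Fintype.card_fin]
    have h2 : (univ : Finset (A × B)) ⊆
        Y ∪ univ.filter (fun y : A × B => (y.1 = 0 ∧ ∃ j, τ j = y.2)) := by
      intro y _
      by_cases h : (y.1 = 0 ∧ ∃ j, τ j = y.2)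
      · exact Finset.mem_union_right _ (Finset.mem_filter.2 ⟨Finset.mem_univ _, h⟩)
      · exact Finset.mem_union_left _ (Finset.mem_filter.2 ⟨Finset.mem_univ _, h⟩)
    have h3 := (Finset.card_le_card h2).trans (Finset.card_union_le _ _)
    rw [Finset.card_univ, Fintype.card_prod] at h3
    omega
  -- double counting
  have hsumXO : (univ.filter (fun q : (A × B) × Fin T =>
      c s(.x q.1.1 q.1.2, .o q.1.1 q.2) ∈ U)).card =
      ∑ x : A × B, (univ.filter (fun j : Fin T => c s(.x x.1 x.2, .o x.1 j) ∈ U)).card := by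
    simp only [Finset.card_filter]
    rw [Fintype.sum_prod_type]
  have hsumXY : ∑ x : A × B, (univ.filter (fun y : A × B => ¬ (y.1 = 0 ∧ ∃ j, τ j = y.2) ∧
        c s(.x x.1 x.2, .y y.1 y.2) ∈ U)).card =
      ∑ y ∈ Y, (univ.filter (fun x : A × B => c s(.x x.1 x.2, .y y.1 y.2) ∈ U)).card := by
    simp only [Finset.card_filter]
    rw [Finset.sum_comm, hY, Finset.sum_filter]
    refine Finset.sum_congr rfl (fun y _ => ?_)
    by_cases h : ¬ (y.1 = 0 ∧ ∃ j, τ j = y.2)
    · simp only [h, true_and, not_false_eq_true, if_true]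
    · simp only [h, false_and, if_false, Finset.sum_const_zero]
  have h1 : ∑ x : A × B, ((univ.filter (fun j : Fin T => c s(.x x.1 x.2, .o x.1 j) ∈ U)).card +
      (univ.filter (fun y : A × B => ¬ (y.1 = 0 ∧ ∃ j, τ j = y.2) ∧
        c s(.x x.1 x.2, .y y.1 y.2) ∈ U)).card) ≤ ∑ _x : A × B, U.card :=
    Finset.sum_le_sum (fun x _ => count_at_x hc U x.1 x.2)
  rw [Finset.sum_add_distrib, ← hsumXO, hsumXY, Finset.sum_const, Finset.card_univ,
    Fintype.card_prod, smul_eq_mul, ← hN] at h1
  have h2 : ∑ _y ∈ Y, U.card ≤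
      ∑ y ∈ Y, ((univ.filter (fun x : A × B => c s(.x x.1 x.2, .y y.1 y.2) ∈ U)).card + k) :=
    Finset.sum_le_sum (fun y hy =>
      count_at_y hc hC hk U hU y.1 y.2 (Finset.mem_filter.1 hy).2)
  rw [Finset.sum_add_distrib, Finset.sum_const, Finset.sum_const, smul_eq_mul, smul_eq_mul] at h2
  have h3 : N * U.card ≤ Y.card * U.card + T * U.card := by
    rw [← add_mul]; exact Nat.mul_le_mul_right _ hYge
  have h4 : Y.card * k ≤ N * k := Nat.mul_le_mul_right _ hYle
  omega

/-- The main counting estimate. -/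
theorem count_xo [Zero A] [Fintype A] [Fintype B] [DecidableEq A] [DecidableEq B]
    {τ : Fin T → B} {c : Sym2 (HW A B T) → ℕ} (hc : IsProper (host τ) c) {C : Finset ℕ} {k : ℕ}
    (hC : ∀ u v, (host τ).Adj u v → c s(u, v) ∈ C)
    (hk : C.card ≤ Fintype.card A * Fintype.card B + k) (U : Finset ℕ) :
    (univ.filter (fun q : (A × B) × Fin T => c s(.x q.1.1 q.1.2, .o q.1.1 q.2) ∈ U)).card ≤
      T * U.card + Fintype.card A * Fintype.card B * k := by
  classical
  have h := count_xo_aux hc hC hk (U ∩ C) Finset.inter_subset_right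
  have h1 : (univ.filter (fun q : (A × B) × Fin T => c s(.x q.1.1 q.1.2, .o q.1.1 q.2) ∈ U)) =
      (univ.filter (fun q : (A × B) × Fin T => c s(.x q.1.1 q.1.2, .o q.1.1 q.2) ∈ U ∩ C)) := by
    refine Finset.filter_congr (fun q _ => ?_)
    rw [Finset.mem_inter]
    exact ⟨fun h => ⟨h, hC _ _ adj_xo⟩, fun h => h.1⟩
  rw [h1]
  refine h.trans (Nat.add_le_add_right (Nat.mul_le_mul_left _ (Finset.card_le_card
    Finset.inter_subset_left)) _)

end Pool.Agent.V11134.RB
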