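import Mathlib

/-!
# Proper edge colourings and rainbow copies: definitions
-/

set_option autoImplicit false

namespace Pool.Agent.V11134.RB

variable {V W κ : Type}

/-- `c` is a proper edge colouring of `G`: distinct edges of `G` that share a vertex get different
colours (the values of `c` outside the edge set of `G` play no role). -/
def IsProper (G : SimpleGraph W) (c : Sym2 W → κ) : Prop :=
  ∀ e ∈ G.edgeSet, ∀ e' ∈ G.edgeSet, e ≠ e' → (∃ v, v ∈ e ∧ v ∈ e') → c e ≠ c e'

/-- `G` contains a copy of `H` (given by an injective map `f` of the vertices that sends edges of `H` to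
edges of `G`) whose edges get pairwise distinct colours under `c`. -/
def HasRainbow (H : SimpleGraph V) (G : SimpleGraph W) (c : Sym2 W → κ) : Prop :=
  ∃ f : V → W, Function.Injective f ∧ (∀ u v, H.Adj u v → G.Adj (f u) (f v)) ∧
    Set.InjOn (fun e => c (e.map f)) H.edgeSet

/-- The number of colours that `c` uses on the edges of `G`. -/
noncomputable def numColours (G : SimpleGraph W) (c : Sym2 W → ℕ) : ℕ := (c '' G.edgeSet).ncard

/-- The chromatic index: the least number of colours used by a proper edge colouring of `G`. -/
noncomputable def chromaticIndex (G : SimpleGraph W) : ℕ :=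
  sInf {n | ∃ c : Sym2 W → ℕ, IsProper G c ∧ numColours G c = n}

end Pool.Agent.V11134.RB
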