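import Pool.Agent.V11134.RB.Arcs

/-!
# The gadget: definitions, the colouring with few colours
-/

set_option autoImplicit false

namespace Pool.Agent.V11134.RB

/-- Vertices of the host graph. -/
inductive HW (A B : Type) (T : ℕ) : Type
  | x (g : A) (i : B)
  | y (g : A) (i : B)
  | o (g : A) (j : Fin T)
  | z
  | a
  | b
  deriving DecidableEq, Fintype

/-- Vertices of the guest graph. -/
inductive GV (t p : ℕ) : Type
  | root
  | child (i : Fin t)
  | leaf (i : Fin t) (l : Fin p)
  | al
  | be
  deriving DecidableEq, Fintype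

variable {A B κ : Type} {T t p : ℕ}

/-- Arcs of the host graph. -/
def hrel [Zero A] (τ : Fin T → B) : HW A B T → HW A B T → Prop
  | .x _ _, .y g' i' => ¬ (g' = 0 ∧ ∃ j, τ j = i')
  | .x g _, .o g' _ => g = g'
  | .z, .o _ _ => True
  | .z, .a => True
  | .z, .b => True
  | .a, .b => True
  | _, _ => False

theorem hrel_asymm [Zero A] (τ : Fin T → B) (u v : HW A B T) : hrel τ u v → ¬ hrel τ v u := by
  rcases u with _ | _ | _ | _ | _ | _ <;> rcases v with _ | _ | _ | _ | _ | _ <;>
    simp [hrel]

/-- The host graph. -/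
def host [Zero A] (τ : Fin T → B) : SimpleGraph (HW A B T) := SimpleGraph.fromRel (hrel τ)

/-- Arcs of the guest graph. -/
def grel : GV t p → GV t p → Prop
  | .root, .child _ => True
  | .root, .al => True
  | .root, .be => True
  | .al, .be => True
  | .child i, .leaf i' _ => i = i'
  | _, _ => False

theorem grel_asymm (u v : GV t p) : grel u v → ¬ grel v u := by
  rcases u with _ | _ | _ | _ | _ <;> rcases v with _ | _ | _ | _ | _ <;>
    simp [grel]

/-- The guest graph. -/
def guest (t p : ℕ) : SimpleGraph (GV t p) := SimpleGraph.fromRel grel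

theorem host_adj [Zero A] {τ : Fin T → B} {u v : HW A B T} :
    (host τ).Adj u v ↔ hrel τ u v ∨ hrel τ v u := by
  rw [host, SimpleGraph.fromRel_adj]
  constructor
  · exact fun h => h.2
  · intro h
    refine ⟨?_, h⟩
    rintro rfl
    rcases h with h | h <;> exact hrel_asymm τ _ _ h h

theorem guest_adj {u v : GV t p} : (guest t p).Adj u v ↔ grel u v ∨ grel v u := by
  rw [guest, SimpleGraph.fromRel_adj]
  constructor
  · exact fun h => h.2
  · intro h
    refine ⟨?_, h⟩
    rintro rfl
    rcases h with h | h <;> exact grel_asymm _ _ h h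

/-! ### The colouring with `|A| |B|` colours -/

/-- Colour of an arc in the colouring with few colours. -/
def col1 [AddCommGroup A] [AddCommGroup B] (τ : Fin T → B) (a1 : A) (b1 b2 b3 : B) :
    HW A B T → HW A B T → A × B
  | .x g i, .y g' i' => (g + g', i + i')
  | .x g i, .o _ j => (g, i + τ j)
  | .z, .o g j => (g + a1, τ j)
  | .z, .a => (0, b1)
  | .z, .b => (0, b2)
  | .a, .b => (0, b3)
  | _, _ => (0, 0)

theorem proper1 [AddCommGroup A] [AddCommGroup B] {τ : Fin T → B} (hτ : Function.Injective τ)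
    {a1 : A} (ha1 : a1 ≠ 0) {b1 b2 b3 : B} (h12 : b1 ≠ b2) (h13 : b1 ≠ b3) (h23 : b2 ≠ b3)
    (hb1 : ∀ j, τ j ≠ b1) (hb2 : ∀ j, τ j ≠ b2) :
    IsProper (host τ) (lc (hrel τ) (col1 τ a1 b1 b2 b3)) := by
  refine isProper_lc (hrel_asymm τ) ?_ ?_ ?_
  · intro u v w
    rcases u with _ | _ | _ | _ | _ | _ <;> rcases v with _ | _ | _ | _ | _ | _ <;>
      rcases w with _ | _ | _ | _ | _ | _ <;>
      simp_all [hrel, col1, Function.Injective.eq_iff hτ, eq_comm]
  · intro u v w
    rcases u with _ | _ | _ | _ | _ | _ <;> rcases v with _ | _ | _ | _ | _ | _ <;>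
      rcases w with _ | _ | _ | _ | _ | _ <;>
      simp_all [hrel, col1, Function.Injective.eq_iff hτ, eq_comm]
  · intro u v w
    rcases u with _ | _ | _ | _ | _ | _ <;> rcases v with _ | _ | _ | _ | _ | _ <;>
      rcases w with _ | _ | _ | _ | _ | _ <;>
      simp_all [hrel, col1, Function.Injective.eq_iff hτ, eq_comm]

end Pool.Agent.V11134.RB
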