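import Pool.Agent.V11134.RB.Count

/-!
# Greedy choice of the outer vertices and of their leaves
-/

set_option autoImplicit false

namespace Pool.Agent.V11134.RB

open Finset

variable {A B : Type} {T t p : ℕ}

/-- Colour of the edge from the outer vertex `o` to the vertex of the first side with second
coordinate `i`. -/
def cl (c : Sym2 (HW A B T) → ℕ) (o : A × Fin T) (i : B) : ℕ := c s(.x o.1 i, .o o.1 o.2)

/-- A partial choice of outer vertices and leaves. -/
structure Good (c : Sym2 (HW A B T) → ℕ) (F : Finset ℕ) (O0 : Finset (A × Fin T)) (p : ℕ)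
    (S : Finset (A × Fin T)) (P : A × Fin T → Finset B) : Prop where
  card : ∀ o ∈ S, (P o).card = p
  avoid : ∀ o ∈ S, o ∉ O0
  colour : ∀ o ∈ S, ∀ i ∈ P o, cl c o i ∉ F
  disj : ∀ o ∈ S, ∀ i ∈ P o, ∀ o' ∈ S, ∀ i' ∈ P o', o ≠ o' →
    cl c o i ≠ cl c o' i' ∧ ¬ (o.1 = o'.1 ∧ i = i')

theorem extend [Zero A] [Fintype A] [Fintype B] [DecidableEq A] [DecidableEq B]
    {τ : Fin T → B} {c : Sym2 (HW A B T) → ℕ} (hc : IsProper (host τ) c) {C : Finset ℕ} {k : ℕ}
    (hC : ∀ u v, (host τ).Adj u v → c s(u, v) ∈ C)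
    (hk : C.card ≤ Fintype.card A * Fintype.card B + k)
    {F : Finset ℕ} {O0 : Finset (A × Fin T)} {p : ℕ}
    {S : Finset (A × Fin T)} {P : A × Fin T → Finset B} (hG : Good c F O0 p S P)
    (hpB : p ≤ Fintype.card B)
    (hineq : T * (F.card + S.card * p) + Fintype.card A * Fintype.card B * k + T * (S.card * p) <
      (Fintype.card A * T - (S.card + O0.card)) * (Fintype.card B - p + 1)) :
    ∃ o ∉ S, ∃ Q : Finset B, Good c F O0 p (insert o S) (Function.update P o Q) := by
  classical
  set usedC : Finset ℕ := S.biUnion (fun o => (P o).image (cl c o)) with hUC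
  set usedX : Finset (A × B) := S.biUnion (fun o => (P o).image (fun i => (o.1, i))) with hUX
  have hUCcard : usedC.card ≤ S.card * p := by
    refine Finset.card_biUnion_le_card_mul _ _ _ (fun o ho => ?_)
    exact Finset.card_image_le.trans (hG.card o ho).le
  have hUXcard : usedX.card ≤ S.card * p := by
    refine Finset.card_biUnion_le_card_mul _ _ _ (fun o ho => ?_)
    exact Finset.card_image_le.trans (hG.card o ho).le
  set bad1 : Finset ((A × B) × Fin T) :=
    univ.filter (fun q => c s(.x q.1.1 q.1.2, .o q.1.1 q.2) ∈ F ∪ usedC) with hbad1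
  set bad2 : Finset ((A × B) × Fin T) := usedX ×ˢ univ with hbad2
  have hb1 : bad1.card ≤ T * (F.card + S.card * p) + Fintype.card A * Fintype.card B * k := by
    refine (count_xo hc hC hk (F ∪ usedC)).trans ?_
    have := Finset.card_union_le F usedC
    have h2 : (F ∪ usedC).card ≤ F.card + S.card * p := by omega
    exact Nat.add_le_add_right (Nat.mul_le_mul_left _ h2) _
  have hb2 : bad2.card ≤ T * (S.card * p) := by
    rw [hbad2, Finset.card_product, Finset.card_univ, Fintype.card_fin, mul_comm]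
    exact Nat.mul_le_mul_left _ hUXcard
  have hbad : (bad1 ∪ bad2).card ≤
      T * (F.card + S.card * p) + Fintype.card A * Fintype.card B * k + T * (S.card * p) :=
    (Finset.card_union_le _ _).trans (Nat.add_le_add hb1 hb2)
  -- an outer vertex with many good leaves
  have hex : ∃ o ∉ S ∪ O0, p ≤
      (univ.filter (fun i : B => ((o.1, i), o.2) ∉ bad1 ∪ bad2)).card := by
    by_contra hno
    push Not at hno
    have hav : Fintype.card A * T - (S.card + O0.card) ≤ ((S ∪ O0)ᶜ).card := by
      rw [Finset.card_compl, Fintype.card_prod, Fintype.card_fin]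
      have := Finset.card_union_le S O0
      omega
    have hmany : ∀ o ∈ (S ∪ O0)ᶜ, Fintype.card B - p + 1 ≤
        (univ.filter (fun i : B => ((o.1, i), o.2) ∈ bad1 ∪ bad2)).card := by
      intro o ho
      have h1 := hno o (Finset.mem_compl.1 ho)
      have h2 : (univ : Finset B) ⊆ univ.filter (fun i : B => ((o.1, i), o.2) ∈ bad1 ∪ bad2) ∪
          univ.filter (fun i : B => ((o.1, i), o.2) ∉ bad1 ∪ bad2) := by
        intro i _
        by_cases h : ((o.1, i), o.2) ∈ bad1 ∪ bad2
        · exact Finset.mem_union_left _ (Finset.mem_filter.2 ⟨Finset.mem_univ _, h⟩)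
        · exact Finset.mem_union_right _ (Finset.mem_filter.2 ⟨Finset.mem_univ _, h⟩)
      have h3 := (Finset.card_le_card h2).trans (Finset.card_union_le _ _)
      rw [Finset.card_univ] at h3
      omega
    have hsum : ∑ o ∈ (S ∪ O0)ᶜ,
        (univ.filter (fun i : B => ((o.1, i), o.2) ∈ bad1 ∪ bad2)).card ≤ (bad1 ∪ bad2).card := by
      rw [← Finset.card_sigma]
      refine Finset.card_le_card_of_injOn (fun q => ((q.1.1, q.2), q.1.2)) ?_ ?_
      · rintro ⟨o, i⟩ hq
        have := (Finset.mem_sigma.1 (Finset.mem_coe.1 hq)).2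
        exact (Finset.mem_filter.1 this).2
      · rintro ⟨⟨g, j⟩, i⟩ _ ⟨⟨g', j'⟩, i'⟩ _ h
        simp only [Prod.mk.injEq] at h
        obtain ⟨⟨rfl, rfl⟩, rfl⟩ := h
        rfl
    have h5 : ((S ∪ O0)ᶜ).card * (Fintype.card B - p + 1) ≤ ∑ o ∈ (S ∪ O0)ᶜ,
        (univ.filter (fun i : B => ((o.1, i), o.2) ∈ bad1 ∪ bad2)).card := by
      have := Finset.card_nsmul_le_sum _ _ _ hmany
      simpa using this
    have h6 := Nat.mul_le_mul_right (Fintype.card B - p + 1) hav
    omega
  obtain ⟨o, ho, hp⟩ := hex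
  obtain ⟨Q, hQ, hQcard⟩ := Finset.exists_subset_card_eq hp
  rw [Finset.mem_union, not_or] at ho
  refine ⟨o, ho.1, Q, ?_⟩
  have hQgood : ∀ i ∈ Q, cl c o i ∉ F ∧ cl c o i ∉ usedC ∧ (o.1, i) ∉ usedX := by
    intro i hi
    have h1 := (Finset.mem_filter.1 (hQ hi)).2
    rw [Finset.mem_union, not_or] at h1
    obtain ⟨h1, h2⟩ := h1
    have h3 : c s(.x o.1 i, .o o.1 o.2) ∉ F ∪ usedC := fun h =>
      h1 (Finset.mem_filter.2 ⟨Finset.mem_univ _, h⟩)
    rw [Finset.mem_union, not_or] at h3
    refine ⟨h3.1, h3.2, fun h => h2 ?_⟩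
    rw [hbad2, Finset.mem_product]
    exact ⟨h, Finset.mem_univ _⟩
  have hold : ∀ o' ∈ S, Function.update P o Q o' = P o' := by
    intro o' ho'
    rw [Function.update_of_ne]
    rintro rfl
    exact ho.1 ho'
  have hcross : ∀ i ∈ Q, ∀ o' ∈ S, ∀ i' ∈ P o', cl c o i ≠ cl c o' i' ∧ ¬ (o.1 = o'.1 ∧ i = i') := by
    intro i hi o' ho' i' hi'
    obtain ⟨-, h2, h3⟩ := hQgood i hi
    constructor
    · intro h
      apply h2
      rw [hUC, Finset.mem_biUnion]
      exact ⟨o', ho', Finset.mem_image.2 ⟨i', hi', h.symm⟩⟩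
    · rintro ⟨h4, h5⟩
      apply h3
      rw [hUX, Finset.mem_biUnion]
      exact ⟨o', ho', Finset.mem_image.2 ⟨i', hi', by rw [h4, h5]⟩⟩
  refine ⟨?_, ?_, ?_, ?_⟩
  · intro o' ho'
    rcases Finset.mem_insert.1 ho' with rfl | ho'
    · rw [Function.update_self, hQcard]
    · rw [hold o' ho', hG.card o' ho']
  · intro o' ho'
    rcases Finset.mem_insert.1 ho' with rfl | ho'
    · exact ho.2
    · exact hG.avoid o' ho'
  · intro o' ho' i hi
    rcases Finset.mem_insert.1 ho' with rfl | ho'
    · rw [Function.update_self] at hi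
      exact (hQgood i hi).1
    · rw [hold o' ho'] at hi
      exact hG.colour o' ho' i hi
  · intro o1 ho1 i1 hi1 o2 ho2 i2 hi2 hne
    rcases Finset.mem_insert.1 ho1 with h1' | h1' <;> rcases Finset.mem_insert.1 ho2 with h2' | h2'
    · exact absurd (h1'.trans h2'.symm) hne
    · rw [h1', Function.update_self] at hi1
      rw [hold o2 h2'] at hi2
      rw [h1']
      exact hcross i1 hi1 o2 h2' i2 hi2
    · rw [h2', Function.update_self] at hi2
      rw [hold o1 h1'] at hi1
      obtain ⟨h1, h2⟩ := hcross i2 hi2 o1 h1' i1 hi1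
      rw [h2']
      exact ⟨h1.symm, fun h => h2 ⟨h.1.symm, h.2.symm⟩⟩
    · rw [hold o1 h1'] at hi1
      rw [hold o2 h2'] at hi2
      exact hG.disj o1 h1' i1 hi1 o2 h2' i2 hi2 hne

theorem exists_good [Zero A] [Fintype A] [Fintype B] [DecidableEq A] [DecidableEq B]
    {τ : Fin T → B} {c : Sym2 (HW A B T) → ℕ} (hc : IsProper (host τ) c) {C : Finset ℕ} {k : ℕ}
    (hC : ∀ u v, (host τ).Adj u v → c s(u, v) ∈ C)
    (hk : C.card ≤ Fintype.card A * Fintype.card B + k)
    {F : Finset ℕ} {O0 : Finset (A × Fin T)} {p : ℕ} (t : ℕ) (hpB : p ≤ Fintype.card B)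
    (hineq : T * (F.card + t * p) + Fintype.card A * Fintype.card B * k + T * (t * p) <
      (Fintype.card A * T - (t + O0.card)) * (Fintype.card B - p + 1)) :
    ∃ S P, S.card = t ∧ Good c F O0 p S P := by
  have key : ∀ s ≤ t, ∃ S P, S.card = s ∧ Good c F O0 p S P := by
    intro s
    induction s with
    | zero =>
      intro _
      exact ⟨∅, fun _ => ∅, rfl, ⟨by simp, by simp, by simp, by simp⟩⟩
    | succ s ih =>
      intro hs
      obtain ⟨S, P, hS, hG⟩ := ih (by omega)
      obtain ⟨o, ho, Q, hG'⟩ := extend hc hC hk hG hpB (by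
        rw [hS]
        have h1 : s * p ≤ t * p := Nat.mul_le_mul_right _ (by omega)
        have h2 : T * (F.card + s * p) ≤ T * (F.card + t * p) := Nat.mul_le_mul_left _ (by omega)
        have h3 : T * (s * p) ≤ T * (t * p) := Nat.mul_le_mul_left _ h1
        have h4 : (Fintype.card A * T - (t + O0.card)) * (Fintype.card B - p + 1) ≤
            (Fintype.card A * T - (s + O0.card)) * (Fintype.card B - p + 1) :=
          Nat.mul_le_mul_right _ (by omega)
        omega)
      exact ⟨insert o S, Function.update P o Q, by rw [Finset.card_insert_of_notMem ho, hS], hG'⟩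
  exact key t le_rfl

end Pool.Agent.V11134.RB
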