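import Pool.Agent.V11134.RB.Greedy

/-!
# Every proper colouring of the host with few colours has a rainbow copy of the guest
-/

set_option autoImplicit false

namespace Pool.Agent.V11134.RB

open Finset

variable {A B : Type} {T t p : ℕ}

theorem adj_zo [Zero A] {τ : Fin T → B} {g : A} {j : Fin T} :
    (host τ).Adj .z (.o g j) :=
  host_adj.2 (Or.inl trivial)

theorem adj_za [Zero A] {τ : Fin T → B} : (host (A := A) τ).Adj .z .a :=
  host_adj.2 (Or.inl trivial)

theorem adj_zb [Zero A] {τ : Fin T → B} : (host (A := A) τ).Adj .z .b :=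
  host_adj.2 (Or.inl trivial)

theorem adj_ab [Zero A] {τ : Fin T → B} : (host (A := A) τ).Adj .a .b :=
  host_adj.2 (Or.inl trivial)

theorem rainbow_of_good [Zero A] {τ : Fin T → B} {c : Sym2 (HW A B T) → ℕ}
    (hc : IsProper (host τ) c) {F : Finset ℕ} {O0 : Finset (A × Fin T)}
    (hFo : ∀ g j, c s(.z, .o g j) ∈ F) (hFa : c s(.z, .a) ∈ F) (hFb : c s(.z, .b) ∈ F)
    (hFab : c s(.a, .b) ∈ F) (hO0 : ∀ o : A × Fin T, c s(.z, .o o.1 o.2) = c s(.a, .b) → o ∈ O0)
    {S : Finset (A × Fin T)} {P : A × Fin T → Finset B} (hG : Good c F O0 p S P)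
    (hS : S.card = t) : HasRainbow (guest t p) (host τ) c := by
  classical
  -- enumerations
  let eS : Fin t ≃ {o // o ∈ S} := (Fintype.equivFinOfCardEq (by simpa using hS)).symm
  have hPc : ∀ o : {o // o ∈ S}, Fintype.card {i // i ∈ P o.1} = p := by
    intro o
    simpa using hG.card o.1 o.2
  let eP : ∀ o : {o // o ∈ S}, Fin p ≃ {i // i ∈ P o.1} := fun o =>
    (Fintype.equivFinOfCardEq (hPc o)).symm
  let O : Fin t → A × Fin T := fun i => (eS i).1
  let X : Fin t → Fin p → B := fun i l => (eP (eS i) l).1
  have hO : ∀ i, O i ∈ S := fun i => (eS i).2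
  have hX : ∀ i l, X i l ∈ P (O i) := fun i l => (eP (eS i) l).2
  have hOinj : ∀ i i', O i = O i' → i = i' := fun i i' h => eS.injective (Subtype.ext h)
  have hXinj : ∀ i l l', X i l = X i l' → l = l' := fun i l l' h =>
    (eP (eS i)).injective (Subtype.ext h)
  let f : GV t p → HW A B T := fun v => match v with
    | .root => .z
    | .child i => .o (O i).1 (O i).2
    | .leaf i l => .x (O i).1 (X i l)
    | .al => .a
    | .be => .b
  have hfinj : Function.Injective f := by
    intro u v h
    rcases u with _ | i | ⟨i, l⟩ | _ | _ <;> rcases v with _ | i' | ⟨i', l'⟩ | _ | _ <;>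
      simp only [f, HW.o.injEq, HW.x.injEq, reduceCtorEq] at h ⊢
    · rw [hOinj i i' (Prod.ext h.1 h.2)]
    · by_cases hi : i = i'
      · subst hi
        rw [hXinj i l l' h.2]
      · exact absurd h (hG.disj _ (hO i) _ (hX i l) _ (hO i') _ (hX i' l')
          (fun h' => hi (hOinj _ _ h'))).2
  refine ⟨f, hfinj, ?_, ?_⟩
  · intro u v huv
    have key : ∀ u v, grel u v → (host τ).Adj (f u) (f v) := by
      intro u v h
      rcases u with _ | i | ⟨i, l⟩ | _ | _ <;> rcases v with _ | i' | ⟨i', l'⟩ | _ | _ <;>
        simp only [grel] at h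
      · exact adj_zo
      · exact adj_za
      · exact adj_zb
      · subst h
        exact adj_xo.symm
      · exact adj_ab
    rcases guest_adj.1 huv with h | h
    · exact key _ _ h
    · exact (key _ _ h).symm
  · -- colours are distinct
    have hleaf : ∀ i l, c (Sym2.map f s(GV.child i, GV.leaf i l)) = cl c (O i) (X i l) := by
      intro i l
      simp only [Sym2.map_mk, f, cl]
      exact congrArg c Sym2.eq_swap
    have hleafF : ∀ i l, c (Sym2.map f s(GV.child i, GV.leaf i l)) ∉ F := by
      intro i l
      rw [hleaf]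
      exact hG.colour _ (hO i) _ (hX i l)
    have hstarF : ∀ v, grel (GV.root : GV t p) v → c (Sym2.map f s(GV.root, v)) ∈ F := by
      intro v hv
      rcases v with _ | i' | ⟨i', l'⟩ | _ | _ <;> simp only [grel] at hv
      · exact hFo _ _
      · exact hFa
      · exact hFb
    have hstar_adj : ∀ v, grel (GV.root : GV t p) v → (host τ).Adj .z (f v) := by
      intro v hv
      rcases v with _ | i' | ⟨i', l'⟩ | _ | _ <;> simp only [grel] at hv
      · exact adj_zo
      · exact adj_za
      · exact adj_zb
    have hstar_inj : ∀ v v', grel (GV.root : GV t p) v → grel (GV.root : GV t p) v' →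
        c (Sym2.map f s(GV.root, v)) = c (Sym2.map f s(GV.root, v')) → v = v' := by
      intro v v' hv hv' h
      by_contra hne
      exact hc.ne (hstar_adj v hv) (hstar_adj v' hv') (fun h' => hne (hfinj h')) h
    have hab : ∀ v, grel (GV.root : GV t p) v →
        c (Sym2.map f s(GV.root, v)) ≠ c (Sym2.map f s(GV.al, GV.be)) := by
      intro v hv h
      rcases v with _ | i' | ⟨i', l'⟩ | _ | _ <;> simp only [grel] at hv
      · exact hG.avoid _ (hO i') (hO0 (O i') h)
      · refine hc.ne adj_za.symm adj_ab (by simp) ?_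
        exact (congrArg c Sym2.eq_swap).trans h
      · refine hc.ne adj_zb.symm adj_ab.symm (by simp) ?_
        exact (congrArg c Sym2.eq_swap).trans (h.trans (congrArg c Sym2.eq_swap))
    have hleafleaf : ∀ i l i' l', c (Sym2.map f s(GV.child i, GV.leaf i l)) =
        c (Sym2.map f s(GV.child i', GV.leaf i' l')) → i = i' ∧ l = l' := by
      intro i l i' l' h
      rw [hleaf, hleaf] at h
      by_cases hi : i = i'
      · subst hi
        refine ⟨rfl, ?_⟩
        by_contra hl
        have h' : c s(.o (O i).1 (O i).2, .x (O i).1 (X i l)) =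
            c s(.o (O i).1 (O i).2, .x (O i).1 (X i l')) :=
          (congrArg c Sym2.eq_swap).trans (h.trans (congrArg c Sym2.eq_swap))
        refine hc.ne adj_xo.symm adj_xo.symm ?_ h'
        intro h2
        injection h2 with _ h2
        exact hl (hXinj _ _ _ h2)
      · exact absurd h (hG.disj _ (hO i) _ (hX i l) _ (hO i') _ (hX i' l')
          (fun h' => hi (hOinj _ _ h'))).1
    intro e he e' he' hee
    obtain ⟨u, v, huv, rfl⟩ := (mem_edge_fromRel grel_asymm).1 he
    obtain ⟨u', v', huv', rfl⟩ := (mem_edge_fromRel grel_asymm).1 he'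
    simp only at hee
    rcases u with _ | i | ⟨i, l⟩ | _ | _
    · -- star edge
      rcases u' with _ | i' | ⟨i', l'⟩ | _ | _
      · rw [hstar_inj v v' huv huv' hee]
      · rcases v' with _ | i2 | ⟨i2, l2⟩ | _ | _ <;> simp only [grel] at huv'
        subst huv'
        exact absurd (hee ▸ hstarF v huv) (hleafF _ _)
      · simp only [grel] at huv'
      · rcases v' with _ | i2 | ⟨i2, l2⟩ | _ | _ <;> simp only [grel] at huv'
        exact absurd hee (hab v huv)
      · simp only [grel] at huv'
    · -- leaf edge
      rcases v with _ | i2 | ⟨i2, l2⟩ | _ | _ <;> simp only [grel] at huv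
      subst huv
      rcases u' with _ | i' | ⟨i', l'⟩ | _ | _
      · exact absurd (hee ▸ hstarF v' huv') (hleafF _ _)
      · rcases v' with _ | i3 | ⟨i3, l3⟩ | _ | _ <;> simp only [grel] at huv'
        subst huv'
        obtain ⟨rfl, rfl⟩ := hleafleaf _ _ _ _ hee
        rfl
      · simp only [grel] at huv'
      · rcases v' with _ | i3 | ⟨i3, l3⟩ | _ | _ <;> simp only [grel] at huv'
        exact absurd (hee ▸ hFab) (hleafF _ _)
      · simp only [grel] at huv'
    · simp only [grel] at huv
    · rcases v with _ | i2 | ⟨i2, l2⟩ | _ | _ <;> simp only [grel] at huv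
      rcases u' with _ | i' | ⟨i', l'⟩ | _ | _
      · exact absurd hee.symm (hab v' huv')
      · rcases v' with _ | i3 | ⟨i3, l3⟩ | _ | _ <;> simp only [grel] at huv'
        subst huv'
        exact absurd (hee ▸ hFab) (hleafF _ _)
      · simp only [grel] at huv'
      · rcases v' with _ | i3 | ⟨i3, l3⟩ | _ | _ <;> simp only [grel] at huv'
        rfl
      · simp only [grel] at huv'
    · simp only [grel] at huv

/-- Every proper colouring of the host whose number of colours is at most `|A| |B| + k` contains a
rainbow copy of the guest. -/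
theorem exists_rainbow [Zero A] [Fintype A] [Fintype B] {τ : Fin T → B}
    {c : Sym2 (HW A B T) → ℕ} (hc : IsProper (host τ) c) {k : ℕ}
    (hk : numColours (host τ) c ≤ Fintype.card A * Fintype.card B + k)
    (hpB : p ≤ Fintype.card B)
    (hineq : T * (Fintype.card A * T + 3 + t * p) + Fintype.card A * Fintype.card B * k +
        T * (t * p) <
      (Fintype.card A * T - (t + 1)) * (Fintype.card B - p + 1)) :
    HasRainbow (guest t p) (host τ) c := by
  classical
  have hfin : (c '' (host τ).edgeSet).Finite := (Set.toFinite _).image _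
  set C : Finset ℕ := hfin.toFinset with hCdef
  have hCcard : C.card ≤ Fintype.card A * Fintype.card B + k := by
    have h1 : (c '' (host τ).edgeSet).ncard = C.card := Set.ncard_eq_toFinset_card _ hfin
    rw [← h1]
    exact hk
  have hC : ∀ u v, (host τ).Adj u v → c s(u, v) ∈ C := by
    intro u v h
    rw [hCdef, Set.Finite.mem_toFinset]
    exact ⟨_, h, rfl⟩
  set F : Finset ℕ := insert (c s(.a, .b)) (insert (c s(.z, .a)) (insert (c s(.z, .b))
    ((univ : Finset (A × Fin T)).image (fun o => c s(.z, .o o.1 o.2))))) with hF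
  have hFcard : F.card ≤ Fintype.card A * T + 3 := by
    have h1 : ((univ : Finset (A × Fin T)).image (fun o => c s(.z, .o o.1 o.2))).card ≤
        Fintype.card A * T := by
      refine Finset.card_image_le.trans ?_
      rw [Finset.card_univ, Fintype.card_prod, Fintype.card_fin]
    refine (Finset.card_insert_le _ _).trans ?_
    have h2 := Finset.card_insert_le (c s(.z, .a)) (insert (c s(.z, .b))
      ((univ : Finset (A × Fin T)).image (fun o => c s(.z, .o o.1 o.2))))
    have h3 := Finset.card_insert_le (c s(.z, .b))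
      ((univ : Finset (A × Fin T)).image (fun o => c s(.z, .o o.1 o.2)))
    omega
  set O0 : Finset (A × Fin T) := univ.filter (fun o => c s(.z, .o o.1 o.2) = c s(.a, .b)) with hO0
  have hO0card : O0.card ≤ 1 := by
    rw [Finset.card_le_one]
    intro o ho o' ho'
    have h1 := (Finset.mem_filter.1 ho).2
    have h2 := (Finset.mem_filter.1 ho').2
    by_contra hne
    refine hc.ne (adj_zo (g := o.1) (j := o.2)) (adj_zo (g := o'.1) (j := o'.2)) ?_ (h1.trans h2.symm)
    intro h
    injection h with h3 h4
    exact hne (Prod.ext h3 h4)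
  obtain ⟨S, P, hS, hG⟩ := exists_good (F := F) (O0 := O0) (p := p) hc hC hCcard t hpB (by
    have h1 : T * (F.card + t * p) ≤ T * (Fintype.card A * T + 3 + t * p) :=
      Nat.mul_le_mul_left _ (by omega)
    have h2 : (Fintype.card A * T - (t + 1)) * (Fintype.card B - p + 1) ≤
        (Fintype.card A * T - (t + O0.card)) * (Fintype.card B - p + 1) :=
      Nat.mul_le_mul_right _ (by omega)
    omega)
  refine rainbow_of_good hc ?_ ?_ ?_ ?_ ?_ hG hS
  · intro g j
    simp only [hF, Finset.mem_insert, Finset.mem_image]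
    exact Or.inr (Or.inr (Or.inr ⟨(g, j), Finset.mem_univ _, rfl⟩))
  · simp [hF]
  · simp [hF]
  · simp [hF]
  · intro o ho
    exact Finset.mem_filter.2 ⟨Finset.mem_univ _, ho⟩

end Pool.Agent.V11134.RB
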