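import Pool.Agent.V11134.RB.NoRainbow
import Pool.Agent.V11134.RB.Rainbow

/-!
# The core existence theorem
-/

set_option autoImplicit false

namespace Pool.Agent.V11134.RB

open Finset

variable {A B : Type} {T t p : ℕ}

theorem chromaticIndex_le {W κ : Type} [Finite κ] {G : SimpleGraph W} {c : Sym2 W → κ}
    (hc : IsProper G c) : chromaticIndex G ≤ Nat.card κ := by
  classical
  have := Fintype.ofFinite κ
  set g : κ → ℕ := fun x => (Fintype.equivFin κ x).val with hg
  have hginj : Function.Injective g := fun x y h => (Fintype.equivFin κ).injective (Fin.ext h)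
  have h1 : chromaticIndex G ≤ numColours G (fun e => g (c e)) :=
    Nat.sInf_le ⟨_, hc.comp_injective hginj, rfl⟩
  refine h1.trans ?_
  have h2 : (fun e => g (c e)) '' G.edgeSet ⊆ Set.range g := by
    rintro _ ⟨e, -, rfl⟩
    exact ⟨_, rfl⟩
  have h3 : (Set.range g).ncard = Nat.card κ := by
    rw [← Set.image_univ, Set.ncard_image_of_injective _ hginj, Set.ncard_univ]
  rw [← h3]
  exact Set.ncard_le_ncard h2 (Set.finite_range g)

/-- A proper colouring with colours in a finite set can be turned into one with colours in `ℕ`. -/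
theorem exists_nat_colouring {V W κ : Type} [Finite κ] {H : SimpleGraph V} {G : SimpleGraph W}
    {c : Sym2 W → κ} (hc : IsProper G c) (hno : ¬ HasRainbow H G c) :
    ∃ c' : Sym2 W → ℕ, IsProper G c' ∧ ¬ HasRainbow H G c' := by
  classical
  have := Fintype.ofFinite κ
  set g : κ → ℕ := fun x => (Fintype.equivFin κ x).val with hg
  have hginj : Function.Injective g := fun x y h => (Fintype.equivFin κ).injective (Fin.ext h)
  exact ⟨fun e => g (c e), hc.comp_injective hginj, fun h => hno h.of_comp⟩

/-- The guest graph is connected. -/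
theorem guest_connected (t p : ℕ) : (guest t p).Connected := by
  have hroot : ∀ v : GV t p, (guest t p).Reachable .root v := by
    intro v
    rcases v with _ | i | ⟨i, l⟩ | _ | _
    · exact SimpleGraph.Reachable.refl _
    · exact (guest_adj.2 (Or.inl trivial) : (guest t p).Adj .root (.child i)).reachable
    · exact ((guest_adj.2 (Or.inl trivial) : (guest t p).Adj .root (.child i)).reachable).trans
        ((guest_adj.2 (Or.inl rfl) : (guest t p).Adj (.child i) (.leaf i l)).reachable)
    · exact (guest_adj.2 (Or.inl trivial) : (guest t p).Adj .root .al).reachable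
    · exact (guest_adj.2 (Or.inl trivial) : (guest t p).Adj .root .be).reachable
  haveI : Nonempty (GV t p) := ⟨.root⟩
  exact ⟨fun u v => (hroot u).symm.trans (hroot v)⟩

/-- The numerical inequality behind the choice of the parameters. -/
theorem param_ineq (k R : ℕ) (hR : 1 ≤ R) :
    (4 * (k + 1)) * (40 * (4 * (k + 1)) + 3 + (10 * (4 * (k + 1))) * (R + 1)) +
        40 * (10 * (4 * (k + 1)) * R) * k + (4 * (k + 1)) * ((10 * (4 * (k + 1))) * (R + 1)) <
      (40 * (4 * (k + 1)) - (10 * (4 * (k + 1)) + 1)) *
        (10 * (4 * (k + 1)) * R - (R + 1) + 1) := by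
  obtain ⟨S, rfl⟩ : ∃ S, R = S + 1 := ⟨R - 1, by omega⟩
  have h1 : 40 * (4 * (k + 1)) - (10 * (4 * (k + 1)) + 1) = 120 * k + 119 := by omega
  have h2 : 10 * (4 * (k + 1)) * (S + 1) - (S + 1 + 1) + 1 = (40 * k + 39) * (S + 1) := by
    have : 10 * (4 * (k + 1)) * (S + 1) = (40 * k + 39) * (S + 1) + (S + 1) := by ring
    rw [this]
    have : 39 ≤ (40 * k + 39) * (S + 1) := by nlinarith
    omega
  rw [h1, h2]
  nlinarith [mul_nonneg (Nat.zero_le k) (Nat.zero_le S), Nat.zero_le k, Nat.zero_le S,
    mul_nonneg (mul_nonneg (Nat.zero_le k) (Nat.zero_le k)) (Nat.zero_le S),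
    mul_nonneg (Nat.zero_le k) (Nat.zero_le k)]

/-- The core statement: for all `k` and `R ≥ 1` the guest graph with parameters `40 (k + 1)` and `R + 1`
has a host all of whose proper colourings with few colours have a rainbow copy of the guest, while some
proper colouring has no such copy. -/
theorem core (k R : ℕ) (hR : 1 ≤ R) : ∃ (W : Type) (_ : Fintype W) (G : SimpleGraph W),
    (∀ c : Sym2 W → ℕ, IsProper G c → numColours G c ≤ chromaticIndex G + k →
      HasRainbow (guest (10 * (4 * (k + 1))) (R + 1)) G c) ∧
    ∃ c : Sym2 W → ℕ, IsProper G c ∧ ¬ HasRainbow (guest (10 * (4 * (k + 1))) (R + 1)) G c := by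
  classical
  set T := 4 * (k + 1) with hT
  have hrpos : T + 2 < 10 * T * R := by nlinarith
  haveI : NeZero (10 * T * R) := ⟨by omega⟩
  set τ : Fin T → ZMod (10 * T * R) := fun j => ((j.val : ℕ) : ZMod (10 * T * R)) with hτ
  have hcast : ∀ m n : ℕ, m < 10 * T * R → n < 10 * T * R →
      ((m : ℕ) : ZMod (10 * T * R)) = ((n : ℕ) : ZMod (10 * T * R)) → m = n := by
    intro m n hm hn h
    rw [ZMod.natCast_eq_natCast_iff'] at h
    rwa [Nat.mod_eq_of_lt hm, Nat.mod_eq_of_lt hn] at h
  have hτinj : Function.Injective τ := by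
    intro i j h
    exact Fin.ext (hcast _ _ (by have := i.2; omega) (by have := j.2; omega) h)
  refine ⟨HW (ZMod 40) (ZMod (10 * T * R)) T, inferInstance, host τ, ?_, ?_⟩
  · intro c hc hnum
    have hchi : chromaticIndex (host (A := ZMod 40) τ) ≤ 40 * (10 * T * R) := by
      have hb : ∀ m, T ≤ m → m < 10 * T * R → ∀ j, τ j ≠ ((m : ℕ) : ZMod (10 * T * R)) := by
        intro m hm hm' j h
        have := hcast _ _ (by have := j.2; omega) hm' h
        have := j.2
        omega
      have hproper := proper1 (A := ZMod 40) hτinj (a1 := 1) (by decide)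
        (b1 := ((T : ℕ) : ZMod (10 * T * R))) (b2 := ((T + 1 : ℕ) : ZMod (10 * T * R)))
        (b3 := ((T + 2 : ℕ) : ZMod (10 * T * R)))
        (fun h => by have := hcast _ _ (by omega) (by omega) h; omega)
        (fun h => by have := hcast _ _ (by omega) (by omega) h; omega)
        (fun h => by have := hcast _ _ (by omega) (by omega) h; omega)
        (hb _ (by omega) (by omega)) (hb _ (by omega) (by omega))
      refine (chromaticIndex_le hproper).trans ?_
      rw [Nat.card_prod, Nat.card_zmod, Nat.card_zmod]
    refine exists_rainbow (k := k) hc ?_ ?_ ?_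
    · rw [ZMod.card, ZMod.card]
      omega
    · rw [ZMod.card]
      nlinarith
    · rw [ZMod.card, ZMod.card]
      exact param_ineq k R hR
  · refine exists_nat_colouring (proper2 hτinj) (noRainbow2 (by omega) ?_)
    rw [ZMod.card]
    nlinarith

end Pool.Agent.V11134.RB
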