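import Pool.Agent.V11134.RB.Gadget

/-!
# The colouring of the host graph without rainbow copies of the guest graph
-/

set_option autoImplicit false

namespace Pool.Agent.V11134.RB

variable {A B κ : Type} {T t p : ℕ}

/-- Colour of an arc in the colouring without rainbow copies. -/
def col2 [AddCommGroup B] (τ : Fin T → B) :
    HW A B T → HW A B T → B ⊕ Sym2 (HW A B T)
  | .x _ i, .o _ j => Sum.inl (i + τ j)
  | u, v => Sum.inr s(u, v)

theorem col2_xo [AddCommGroup B] (τ : Fin T → B) (g : A) (i : B) (g' : A) (j : Fin T) :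
    col2 τ (.x g i) (.o g' j) = Sum.inl (i + τ j) := rfl

theorem col2_eq [AddCommGroup B] (τ : Fin T → B) (u v : HW A B T) :
    (∃ g i g' j, u = .x g i ∧ v = .o g' j ∧ col2 τ u v = Sum.inl (i + τ j)) ∨
      col2 τ u v = Sum.inr s(u, v) := by
  rcases u with _ | _ | _ | _ | _ | _ <;> rcases v with _ | _ | _ | _ | _ | _ <;>
    simp [col2]

theorem proper2 [Zero A] [AddCommGroup B] {τ : Fin T → B} (hτ : Function.Injective τ) :
    IsProper (host (A := A) τ) (lc (hrel τ) (col2 τ)) := by
  refine isProper_lc (hrel_asymm τ) ?_ ?_ ?_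
  · intro u v w h1 h2 hvw heq
    have hv := col2_eq τ u v
    have hw := col2_eq τ u w
    rcases hv with ⟨g, i, g', j, hu, hv, h3⟩ | h3 <;>
      rcases hw with ⟨g2, i2, g2', j2, hu', hw, h5⟩ | h5
    · rw [h3, h5] at heq
      rw [hu] at hu'
      injection hu' with h4 h4'
      subst h4 h4'
      have : τ j = τ j2 := by simpa using heq
      have hj := hτ this
      rw [hu, hv] at h1
      rw [hu, hw] at h2
      simp only [hrel] at h1 h2
      exact hvw (by rw [hv, hw, ← h1, ← h2, hj])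
    · rw [h3, h5] at heq; simp at heq
    · rw [h3, h5] at heq; simp at heq
    · rw [h3, h5, Sum.inr.injEq, Sym2.eq_iff] at heq
      rcases heq with ⟨-, h⟩ | ⟨h, h'⟩
      · exact hvw h
      · exact hvw (h'.trans h)
  · intro u v w h1 h2 hvw heq
    have hv := col2_eq τ v u
    have hw := col2_eq τ w u
    rcases hv with ⟨g, i, g', j, hv, hu, h3⟩ | h3 <;>
      rcases hw with ⟨g2, i2, g2', j2, hw, hu', h5⟩ | h5
    · rw [h3, h5] at heq
      rw [hu] at hu'
      injection hu' with h4 h4'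
      subst h4 h4'
      rw [hu, hv] at h1
      rw [hu, hw] at h2
      simp only [hrel] at h1 h2
      have : i = i2 := by simpa using heq
      exact hvw (by rw [hv, hw, h1, h2, this])
    · rw [h3, h5] at heq; simp at heq
    · rw [h3, h5] at heq; simp at heq
    · rw [h3, h5, Sum.inr.injEq, Sym2.eq_iff] at heq
      rcases heq with ⟨h, -⟩ | ⟨h, h'⟩
      · exact hvw h
      · exact hvw (h.trans h')
  · intro u v w h1 h2 heq
    have hv := col2_eq τ u v
    have hw := col2_eq τ w u
    rcases hv with ⟨g, i, g', j, hu, hv, h3⟩ | h3 <;>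
      rcases hw with ⟨g2, i2, g2', j2, hw, hu', h5⟩ | h5
    · rw [hu] at hu'
      exact absurd hu' (by simp)
    · rw [h3, h5] at heq; simp at heq
    · rw [h3, h5] at heq; simp at heq
    · rw [h3, h5, Sum.inr.injEq, Sym2.eq_iff] at heq
      rcases heq with ⟨h, h'⟩ | ⟨h, h'⟩
      · rw [h] at h2
        exact hrel_asymm τ _ _ h2 h2
      · rw [h'] at h1
        exact hrel_asymm τ _ _ h1 h2

/-- The only triangle of the host graph is `z, a, b`. -/
theorem triangle [Zero A] {τ : Fin T → B} {u v w : HW A B T} (h1 : (host τ).Adj u v)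
    (h2 : (host τ).Adj u w) (h3 : (host τ).Adj v w) :
    (u = .z ∧ v = .a ∧ w = .b) ∨ (u = .z ∧ v = .b ∧ w = .a) ∨ (u = .a ∧ v = .z ∧ w = .b) ∨
    (u = .a ∧ v = .b ∧ w = .z) ∨ (u = .b ∧ v = .z ∧ w = .a) ∨ (u = .b ∧ v = .a ∧ w = .z) := by
  rw [host_adj] at h1 h2 h3
  rcases u with _ | _ | _ | _ | _ | _ <;> rcases v with _ | _ | _ | _ | _ | _ <;>
    simp [hrel] at h1 <;> rcases w with _ | _ | _ | _ | _ | _ <;> simp_all [hrel]

theorem nbr_a [Zero A] {τ : Fin T → B} {u : HW A B T} (h : (host τ).Adj .a u) :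
    u = .z ∨ u = .b := by
  rw [host_adj] at h
  rcases u with _ | _ | _ | _ | _ | _ <;> simp_all [hrel]

theorem nbr_b [Zero A] {τ : Fin T → B} {u : HW A B T} (h : (host τ).Adj .b u) :
    u = .z ∨ u = .a := by
  rw [host_adj] at h
  rcases u with _ | _ | _ | _ | _ | _ <;> simp_all [hrel]

theorem nbr_z [Zero A] {τ : Fin T → B} {u : HW A B T} (h : (host τ).Adj .z u) :
    u = .a ∨ u = .b ∨ ∃ g j, u = .o g j := by
  rw [host_adj] at h
  rcases u with _ | _ | _ | _ | _ | _ <;> simp_all [hrel]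

theorem nbr_o [Zero A] {τ : Fin T → B} {g : A} {j : Fin T} {u : HW A B T}
    (h : (host τ).Adj (.o g j) u) : u = .z ∨ ∃ i, u = .x g i := by
  rw [host_adj] at h
  rcases u with _ | _ | _ | _ | _ | _ <;> simp_all [hrel]

/-- Any copy of the guest in the host has its root at `z`, its children at outer vertices and its leaves
at vertices of the first side. -/
theorem copy_shape [Zero A] {τ : Fin T → B} (ht : 0 < t) {f : GV t p → HW A B T}
    (hf : Function.Injective f)
    (hadj : ∀ u v, (guest t p).Adj u v → (host τ).Adj (f u) (f v)) :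
    ∀ i l, ∃ g j i', f (.child i) = .o g j ∧ f (.leaf i l) = .x g i' := by
  have hab : (host τ).Adj (f .root) (f .al) := hadj _ _ (guest_adj.2 (Or.inl trivial))
  have hac : (host τ).Adj (f .root) (f .be) := hadj _ _ (guest_adj.2 (Or.inl trivial))
  have hbc : (host τ).Adj (f .al) (f .be) := hadj _ _ (guest_adj.2 (Or.inl trivial))
  have hch : ∀ i, (host τ).Adj (f .root) (f (.child i)) :=
    fun i => hadj _ _ (guest_adj.2 (Or.inl trivial))
  have hlf : ∀ i l, (host τ).Adj (f (.child i)) (f (.leaf i l)) :=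
    fun i l => hadj _ _ (guest_adj.2 (Or.inl rfl))
  have hne : ∀ {u v : GV t p}, u ≠ v → f u ≠ f v := fun h h' => h (hf h')
  have hne1 : ∀ i, f (.child i) ≠ f .al := fun i => hne (by simp)
  have hne2 : ∀ i, f (.child i) ≠ f .be := fun i => hne (by simp)
  have hne3 : ∀ i l, f (.leaf i l) ≠ f .root := fun i l => hne (by simp)
  have hroot : f .root = .z ∧ ((f .al = .a ∧ f .be = .b) ∨ (f .al = .b ∧ f .be = .a)) := by
    rcases triangle hab hac hbc with ⟨h1, h2, h3⟩ | ⟨h1, h2, h3⟩ | ⟨h1, h2, h3⟩ | ⟨h1, h2, h3⟩ |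
      ⟨h1, h2, h3⟩ | ⟨h1, h2, h3⟩
    · exact ⟨h1, Or.inl ⟨h2, h3⟩⟩
    · exact ⟨h1, Or.inr ⟨h2, h3⟩⟩
    · exfalso
      have := hch ⟨0, ht⟩
      rw [h1] at this
      rcases nbr_a this with h | h
      · exact hne1 _ (h.trans h2.symm)
      · exact hne2 _ (h.trans h3.symm)
    · exfalso
      have := hch ⟨0, ht⟩
      rw [h1] at this
      rcases nbr_a this with h | h
      · exact hne2 _ (h.trans h3.symm)
      · exact hne1 _ (h.trans h2.symm)
    · exfalso
      have := hch ⟨0, ht⟩
      rw [h1] at this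
      rcases nbr_b this with h | h
      · exact hne1 _ (h.trans h2.symm)
      · exact hne2 _ (h.trans h3.symm)
    · exfalso
      have := hch ⟨0, ht⟩
      rw [h1] at this
      rcases nbr_b this with h | h
      · exact hne2 _ (h.trans h3.symm)
      · exact hne1 _ (h.trans h2.symm)
  intro i l
  have h1 := hch i
  rw [hroot.1] at h1
  rcases nbr_z h1 with h | h | ⟨g, j, h⟩
  · exfalso
    rcases hroot.2 with ⟨h2, -⟩ | ⟨-, h2⟩
    · exact hne1 i (h.trans h2.symm)
    · exact hne2 i (h.trans h2.symm)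
  · exfalso
    rcases hroot.2 with ⟨-, h2⟩ | ⟨h2, -⟩
    · exact hne2 i (h.trans h2.symm)
    · exact hne1 i (h.trans h2.symm)
  · have h2 := hlf i l
    rw [h] at h2
    rcases nbr_o h2 with h3 | ⟨i', h3⟩
    · exact absurd (h3.trans hroot.1.symm) (hne3 i l)
    · exact ⟨g, j, i', h, h3⟩

/-- The second colouring has no rainbow copy of the guest. -/
theorem noRainbow2 [Zero A] [AddCommGroup B] [Fintype B] {τ : Fin T → B} (ht : 0 < t)
    (hB : Fintype.card B < t * p) :
    ¬ HasRainbow (guest t p) (host (A := A) τ) (lc (hrel τ) (col2 τ)) := by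
  rintro ⟨f, hf, hadj, hinj⟩
  have hshape := copy_shape ht hf hadj
  -- colours of the leaf edges
  have hcol : ∀ i l, ∃ b : B, lc (hrel τ) (col2 τ) s(f (.child i), f (.leaf i l)) = Sum.inl b := by
    intro i l
    obtain ⟨g, j, i', h1, h2⟩ := hshape i l
    rw [h1, h2, Sym2.eq_swap, lc_eq (hrel_asymm τ) _ (show hrel τ (.x g i') (.o g j) from rfl)]
    exact ⟨_, rfl⟩
  choose b hb using hcol
  have hbinj : Function.Injective (fun q : Fin t × Fin p => b q.1 q.2) := by
    rintro ⟨i, l⟩ ⟨i', l'⟩ h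
    simp only at h
    have he : s(GV.child i, GV.leaf i l) ∈ (guest t p).edgeSet :=
      guest_adj.2 (Or.inl rfl)
    have he' : s(GV.child i', GV.leaf i' l') ∈ (guest t p).edgeSet :=
      guest_adj.2 (Or.inl rfl)
    have := hinj he he' (by
      simp only [Sym2.map_mk]
      rw [hb, hb, h])
    rw [Sym2.eq_iff] at this
    rcases this with ⟨-, h2⟩ | ⟨h1, -⟩
    · injection h2 with h3 h4
      rw [h3, h4]
    · exact absurd h1 (by simp)
  have := Fintype.card_le_of_injective _ hbinj
  rw [Fintype.card_prod, Fintype.card_fin, Fintype.card_fin] at this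
  omega

end Pool.Agent.V11134.RB
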