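import Pool.Agent.V11134.RB.Main
import Mathlib.Combinatorics.Hall.Basic

/-!
# From a witness with surplus one to a set of colour counts which is not an interval
-/

set_option autoImplicit false

namespace Pool.Agent.V11134.RB

open Finset

variable {V W : Type}

/-- The guest together with a matching of size `e`. -/
def plusGuest (H : SimpleGraph V) (e : ℕ) : SimpleGraph (V ⊕ (Fin e × Bool)) where
  Adj u v := match u, v with
    | .inl u, .inl v => H.Adj u v
    | .inr u, .inr v => u.1 = v.1 ∧ u.2 ≠ v.2
    | _, _ => False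
  symm := ⟨fun u v h => by
    rcases u with u | u <;> rcases v with v | v
    · exact SimpleGraph.Adj.symm h
    · exact h.elim
    · exact h.elim
    · exact ⟨h.1.symm, h.2.symm⟩⟩
  loopless := ⟨fun u h => by
    rcases u with u | u
    · exact H.irrefl h
    · exact h.2 rfl⟩

/-- Two copies of the host together with `L` stars with `d` edges. -/
def plusHost (G : SimpleGraph W) (L d : ℕ) :
    SimpleGraph ((Bool × W) ⊕ (Fin L × Option (Fin d))) where
  Adj u v := match u, v with
    | .inl u, .inl v => u.1 = v.1 ∧ G.Adj u.2 v.2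
    | .inr u, .inr v => u.1 = v.1 ∧ ((u.2 = none ∧ v.2 ≠ none) ∨ (u.2 ≠ none ∧ v.2 = none))
    | _, _ => False
  symm := ⟨fun u v h => by
    rcases u with u | u <;> rcases v with v | v
    · exact ⟨h.1.symm, SimpleGraph.Adj.symm h.2⟩
    · exact h.elim
    · exact h.elim
    · exact ⟨h.1.symm, h.2.symm.imp (fun h => ⟨h.2, h.1⟩) (fun h => ⟨h.2, h.1⟩)⟩⟩
  loopless := ⟨fun u h => by
    rcases u with u | u
    · exact G.irrefl h.2
    · rcases h.2 with h | h
      · exact h.2 h.1
      · exact h.1 h.2⟩

/-- The component of a vertex. -/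
def lab {L d : ℕ} : (Bool × W) ⊕ (Fin L × Option (Fin d)) → Bool ⊕ Fin L
  | .inl u => .inl u.1
  | .inr u => .inr u.1

theorem lab_eq_of_adj {G : SimpleGraph W} {L d : ℕ} {u v : (Bool × W) ⊕ (Fin L × Option (Fin d))}
    (h : (plusHost G L d).Adj u v) : lab u = lab v := by
  rcases u with u | u <;> rcases v with v | v
  · exact congrArg Sum.inl h.1
  · exact h.elim
  · exact h.elim
  · exact congrArg Sum.inr h.1

/-- Restriction of a colouring to one of the two copies of the host. -/
def restr {L d : ℕ} (c : Sym2 ((Bool × W) ⊕ (Fin L × Option (Fin d))) → ℕ) (b : Bool) :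
    Sym2 W → ℕ := fun e => c (e.map (fun u => .inl (b, u)))

theorem inl_injective {L d : ℕ} (b : Bool) :
    Function.Injective (fun u : W => (.inl (b, u) : (Bool × W) ⊕ (Fin L × Option (Fin d)))) := by
  intro u v h
  simpa using h

theorem isProper_restr {G : SimpleGraph W} {L d : ℕ}
    {c : Sym2 ((Bool × W) ⊕ (Fin L × Option (Fin d))) → ℕ} (hc : IsProper (plusHost G L d) c)
    (b : Bool) : IsProper G (restr c b) := by
  intro e he e' he' hne hv
  have hmem : ∀ e ∈ G.edgeSet, e.map (fun u => (.inl (b, u) : (Bool × W) ⊕ (Fin L × Option (Fin d))))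
      ∈ (plusHost G L d).edgeSet := by
    intro e he
    induction e using Sym2.ind with
    | _ u v => exact ⟨rfl, he⟩
  obtain ⟨v, hv, hv'⟩ := hv
  refine hc _ (hmem e he) _ (hmem e' he') ?_ ⟨.inl (b, v), Sym2.mem_map.2 ⟨v, hv, rfl⟩,
    Sym2.mem_map.2 ⟨v, hv', rfl⟩⟩
  exact fun h => hne (Sym2.map.injective (inl_injective b) h)

theorem numColours_restr_le [Finite W] {G : SimpleGraph W} {L d : ℕ}
    (c : Sym2 ((Bool × W) ⊕ (Fin L × Option (Fin d))) → ℕ) (b : Bool) :
    numColours G (restr c b) ≤ numColours (plusHost G L d) c := by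
  refine Set.ncard_le_ncard ?_ ((Set.toFinite _).image _)
  rintro _ ⟨e, he, rfl⟩
  refine ⟨e.map (fun u => .inl (b, u)), ?_, rfl⟩
  induction e using Sym2.ind with
  | _ u v => exact ⟨rfl, he⟩

/-- The colouring of `plusHost` obtained from a colouring of `G` and a colouring of the stars. -/
def plusCol {L d : ℕ} (c0 : Sym2 W → ℕ) (s0 : Fin d → ℕ) :
    Sym2 ((Bool × W) ⊕ (Fin L × Option (Fin d))) → ℕ :=
  Sym2.lift ⟨fun u v => match u, v with
    | .inl u, .inl v => c0 s(u.2, v.2)
    | .inr (_, none), .inr (_, some i) => s0 i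
    | .inr (_, some i), .inr (_, none) => s0 i
    | _, _ => 0, by
      intro u v
      rcases u with u | ⟨l, _ | i⟩ <;> rcases v with v | ⟨l', _ | j⟩ <;> simp only
      exact congrArg c0 Sym2.eq_swap⟩

theorem restr_plusCol {L d : ℕ} (c0 : Sym2 W → ℕ) (s0 : Fin d → ℕ) (b : Bool) :
    restr (plusCol (L := L) c0 s0) b = c0 := by
  funext e
  induction e using Sym2.ind with
  | _ u v => rfl

theorem isProper_plusCol {G : SimpleGraph W} {L d : ℕ} {c0 : Sym2 W → ℕ} (hc : IsProper G c0)
    {s0 : Fin d → ℕ} (hs : Function.Injective s0) :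
    IsProper (plusHost G L d) (plusCol c0 s0) := by
  have key : ∀ x u v, (plusHost G L d).Adj x u → (plusHost G L d).Adj x v → u ≠ v →
      plusCol (L := L) c0 s0 s(x, u) ≠ plusCol (L := L) c0 s0 s(x, v) := by
    intro x u v hu hv hne
    rcases x with ⟨b, x⟩ | ⟨l, x⟩
    · rcases u with ⟨b1, u⟩ | u
      swap
      · exact hu.elim
      rcases v with ⟨b2, v⟩ | v
      swap
      · exact hv.elim
      obtain ⟨h1, h2⟩ := hu
      obtain ⟨h3, h4⟩ := hv
      simp only at h1 h2 h3 h4
      subst h1 h3
      exact hc.ne h2 h4 (fun h => hne (congrArg (fun w => Sum.inl (b, w)) h))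
    · rcases u with u | ⟨l1, u⟩
      · exact hu.elim
      rcases v with v | ⟨l2, v⟩
      · exact hv.elim
      obtain ⟨h1, h2⟩ := hu
      obtain ⟨h3, h4⟩ := hv
      simp only at h1 h2 h3 h4
      subst h1 h3
      rcases x with _ | i <;> rcases u with _ | j <;> rcases v with _ | j' <;> simp at h2 h4
      · intro h
        have : j = j' := hs h
        exact hne (by rw [this])
      · exact absurd rfl hne
  intro e he e' he' hne hv
  obtain ⟨x, hx, hx'⟩ := hv
  obtain ⟨u, rfl⟩ := Sym2.mem_iff_exists.1 hx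
  obtain ⟨v, rfl⟩ := Sym2.mem_iff_exists.1 hx'
  exact key x u v he he' (fun h => hne (by rw [h]))

/-- The number of edges of a graph with a rainbow copy is at most the number of colours. -/
theorem HasRainbow.le [Finite W] {H : SimpleGraph V} {G : SimpleGraph W} {c : Sym2 W → ℕ}
    (h : HasRainbow H G c) : H.edgeSet.ncard ≤ numColours G c := by
  obtain ⟨f, -, hadj, hinj⟩ := h
  refine Set.ncard_le_ncard_of_injOn (fun e => c (e.map f)) ?_ hinj ((Set.toFinite _).image _)
  intro e he
  refine ⟨e.map f, ?_, rfl⟩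
  induction e using Sym2.ind with
  | _ u v => exact hadj u v he

/-- A graph map from a connected graph with a triangle into `plusHost` goes to one copy of the host. -/
theorem maps_to_copy {H : SimpleGraph V} (hH : H.Connected)
    {a b' c' : V} (h1 : H.Adj a b') (h2 : H.Adj a c') (h3 : H.Adj b' c')
    {G : SimpleGraph W} {L d : ℕ} {f : V → (Bool × W) ⊕ (Fin L × Option (Fin d))}
    (hf : ∀ u v, H.Adj u v → (plusHost G L d).Adj (f u) (f v)) :
    ∃ (b : Bool) (g : V → W), ∀ v, f v = .inl (b, g v) := by
  have hlab : ∀ u v, lab (f u) = lab (f v) := by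
    intro u v
    obtain ⟨w⟩ := hH.preconnected u v
    induction w with
    | nil => rfl
    | cons h _ ih => exact (lab_eq_of_adj (hf _ _ h)).trans ih
  have ha : ∃ b, lab (f a) = .inl b := by
    have e1 := hf _ _ h1
    have e2 := hf _ _ h2
    have e3 := hf _ _ h3
    rcases hfa : f a with x | ⟨l, x⟩
    · exact ⟨x.1, rfl⟩
    · exfalso
      rw [hfa] at e1 e2
      rcases hfb : f b' with y | ⟨l1, y⟩
      · rw [hfb] at e1; exact e1
      rcases hfc : f c' with z | ⟨l2, z⟩
      · rw [hfc] at e2; exact e2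
      rw [hfb] at e1 e3
      rw [hfc] at e2 e3
      have e1 := e1.2
      have e2 := e2.2
      have e3 := e3.2
      simp only at e1 e2 e3
      tauto
  obtain ⟨b, hb⟩ := ha
  have hall : ∀ v, ∃ w, f v = .inl (b, w) := by
    intro v
    have := (hlab v a).trans hb
    rcases hfv : f v with ⟨b1, w⟩ | x
    · rw [hfv] at this
      simp only [lab, Sum.inl.injEq] at this
      exact ⟨w, by rw [this]⟩
    · rw [hfv] at this
      simp [lab] at this
  choose g hg using hall
  exact ⟨b, g, hg⟩

/-- A rainbow copy of `plusGuest` in `plusHost` gives a rainbow copy of the guest in the host. -/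
theorem rainbow_of_plus {H : SimpleGraph V} (hH : H.Connected)
    {a b' c' : V} (h1 : H.Adj a b') (h2 : H.Adj a c') (h3 : H.Adj b' c')
    {G : SimpleGraph W} {L d e : ℕ} {c : Sym2 ((Bool × W) ⊕ (Fin L × Option (Fin d))) → ℕ}
    (h : HasRainbow (plusGuest H e) (plusHost G L d) c) : ∃ b, HasRainbow H G (restr c b) := by
  obtain ⟨f, hinj, hadj, hcol⟩ := h
  obtain ⟨b, g, hg⟩ := maps_to_copy (G := G) (f := fun v => f (.inl v)) hH h1 h2 h3
    (fun u v huv => hadj _ _ huv)
  refine ⟨b, g, ?_, ?_, ?_⟩
  · intro u v huv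
    have : f (.inl u) = f (.inl v) := by rw [hg, hg, huv]
    simpa using hinj this
  · intro u v huv
    have := hadj (.inl u) (.inl v) huv
    rw [hg u, hg v] at this
    exact this.2
  · have hmap : ∀ x : Sym2 V, (x.map g).map (fun w => (.inl (b, w) : (Bool × W) ⊕ _)) =
        (x.map Sum.inl).map f := by
      intro x
      rw [Sym2.map_map, Sym2.map_map]
      congr 1
      funext v
      exact (hg v).symm
    intro x hx y hy hxy
    have hmem : ∀ x ∈ H.edgeSet, x.map Sum.inl ∈ (plusGuest H e).edgeSet := by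
      intro x hx
      induction x using Sym2.ind with
      | _ u v => exact hx
    have := hcol (hmem x hx) (hmem y hy) (by
      simp only [restr] at hxy ⊢
      rw [← hmap, ← hmap]
      exact hxy)
    exact Sym2.map.injective Sum.inl_injective this

end Pool.Agent.V11134.RB
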